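import Pool.Agent.Z15P.Z15.W.Stm

/-!
# Task W_FLAGi of the board t15_tasks (helper15), by helper64
-/

set_option autoImplicit false

open FF FF.PP MvPolynomial Pool.Agent.Z15P.Z15.H Pool.Agent.Z15P.Z15.J Pool.Agent.Z15P.Z15.J.Stm Pool.Agent.Z15P.Z15.S
open Pool.Agent.Z15P.Z15.W

namespace Pool.Agent.Z15P.T3h64.Z15

/-- the mixed degree, from the blocks -/
lemma mix_of {K ι : Type} [Field K] [Fintype ι] {F : MvPolynomial ι K} {D : ℕ}
    (hF : F.IsHomogeneous D) {b : ι → ℕ} {s m : ℕ} (hM : MixB F b s m) (Y : Finset ι)
    (hY : ∀ i, i ∈ Y ↔ b i = 0) : Mix F (bS b s) Y (min m (D - 1)) := by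
  intro μ hμ ⟨i, hi, hi0⟩
  have hbi := (hY i).1 hi
  have h1 := hM μ hμ i hi0
  have h2 : ∑ i' ∈ bS b s, μ i' ≤ ∑ i' with b i < b i' ∧ b i' ≤ s, μ i' := by
    refine Finset.sum_le_sum_of_subset_of_nonneg ?_ fun _ _ _ => Nat.zero_le _
    intro x hx
    unfold bS at hx
    rw [Finset.mem_filter] at hx ⊢
    refine ⟨Finset.mem_univ _, ?_, hx.2.2⟩
    omega
  have hdeg : ∑ i, μ i = D := by
    have h1 := hF (mem_support_iff.1 hμ)
    rw [← h1]
    have h2 : (Finsupp.weight (1 : ι → ℕ)) μ = μ.degree :=
      (congrFun (congrArg DFunLike.coe (Finsupp.degree_eq_weight_one (R := ℕ) (σ := ι))) μ).symm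
    rw [h2, Finsupp.degree_eq_sum]
  have h3 : ∑ i' ∈ bS b s, μ i' + μ i ≤ ∑ i, μ i := by
    classical
    have h4 : i ∉ bS b s := by
      unfold bS
      rw [Finset.mem_filter]
      rintro ⟨-, h5, -⟩
      omega
    rw [add_comm, ← Finset.sum_insert h4]
    exact Finset.sum_le_sum_of_subset_of_nonneg (Finset.subset_univ _) fun _ _ _ => Nat.zero_le _
  have h4 : 0 < μ i := Nat.pos_of_ne_zero hi0
  exact le_min (h2.trans h1) (by omega)

/-- a common zero with support in `S` -/
lemma exists_point (hSO : S_SOLVE) (hCO : S_CO) {k : Type} [Field k] [IsAlgClosed k] [Infinite k]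
    {ι α : Type} [Fintype ι] [Fintype α] (F : α → MvPolynomial ι k) (d : α → ℕ)
    (hF : ∀ a, (F a).IsHomogeneous (d a)) (hd : ∀ a, 0 < d a) (S : Finset ι)
    (hcard : Fintype.card α < S.card) :
    ∃ p : ι → k, p ≠ 0 ∧ Supp S p ∧ ∀ a, eval p (F a) = 0 := by
  obtain ⟨E', _, i1, i2, ht, w, hfin, hw0, hwS, hco⟩ := hSO k k ι α F d hF (fun _ _ => 0) d
    (fun b => ⟨hd b, le_rfl⟩) S hcard
  have h12 : i1 = i2 := by
    refine Algebra.algebra_ext _ _ fun r => ?_
    exact (@IsScalarTower.algebraMap_apply k k E' _ _ _ _ i1 i2 ht r).symm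
  subst h12
  have hbij := IsAlgClosed.algebraMap_bijective_of_isIntegral (k := k) (K := E')
  choose p hp using fun i => hbij.2 (w i)
  refine ⟨p, ?_, ?_, fun a => ?_⟩
  · rintro rfl
    apply hw0
    funext i
    rw [← hp i]
    simp
  · intro i hi
    apply hbij.1
    rw [hp i, hwS i hi, map_zero]
  · apply hbij.1
    have h1 := hco a
    rw [((hCO k ι (F a) (d a) (hF a)).2.2.1 E' _ w).2] at h1
    rw [map_zero, ← h1]
    have h2 : w = fun i => algebraMap k E' (p i) := by
      funext i
      exact (hp i).symm
    rw [h2]
    exact (aeval_algebraMap_apply (A := k) (B := E') p (F a)).symm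

theorem t_FLAGi : W_FLAGi := by
  intro hSS hSO hCO hMX
  intro k _ _ _ ι α _ _ F d b s m hsys hd2
  induction s generalizing ι α F d b with
  | zero =>
    classical
    obtain ⟨p, hp0, hpS, hpF⟩ := exists_point hSO hCO F d hsys.hom hsys.pos
      (Finset.univ.filter fun i => b i = 0) (by
        have h1 := hsys.sizes.zero
        rw [pow_zero, one_mul] at h1
        refine lt_of_lt_of_le ?_ h1
        obtain ⟨a, ha⟩ := hd2
        have h2 : ∑ _a : α, 1 < ∑ a, d a :=
          Finset.sum_lt_sum (fun a _ => hsys.pos a) ⟨a, Finset.mem_univ a, by omega⟩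
        rwa [Finset.sum_const, Finset.card_univ, smul_eq_mul, mul_one] at h2)
    refine ⟨fun _ => p, fun _ _ => hp0, fun j hj i hi => ?_, fun a A _ _ c => ?_⟩
    · apply hpS
      rw [Finset.mem_filter]
      rintro ⟨-, h⟩
      omega
    · have h1 := (hCO k ι (F a) (d a) (hsys.hom a)).1 A (fun i => algebraMap k A (p i))
        (fun _ => 0) (c 0) 0
      have h2 : (fun i => ∑ j ∈ Finset.range (0 + 1), c j * algebraMap k A (p i)) =
          fun i => c 0 * algebraMap k A (p i) + 0 * 0 := by
        funext i
        rw [zero_add, Finset.sum_range_one, mul_zero, add_zero]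
      rw [h2, h1]
      refine Finset.sum_eq_zero fun j _ => ?_
      by_cases hj : j = 0
      · subst hj
        rw [((hCO k ι (F a) (d a) (hsys.hom a)).2.2.1 A _ _).1]
        have h3 : (aeval fun i => (algebraMap k A) (p i)) (F a) = algebraMap k A (eval p (F a)) :=
          aeval_algebraMap_apply (A := k) (B := A) p (F a)
        rw [h3, hpF a, map_zero, zero_mul, zero_mul]
      · rw [zero_pow hj, mul_zero]
  | succ s ih =>
    classical
    obtain ⟨p, hp0, hpS, hpF⟩ := exists_point hSO hCO F d hsys.hom hsys.pos
      (Finset.univ.filter fun i => b i = 0) (by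
        have h1 := hsys.sizes.zero
        refine lt_of_lt_of_le ?_ h1
        obtain ⟨a, ha⟩ := hd2
        have h2 : ∑ _a : α, 1 < ∑ a, d a :=
          Finset.sum_lt_sum (fun a _ => hsys.pos a) ⟨a, Finset.mem_univ a, by omega⟩
        rw [Finset.sum_const, Finset.card_univ, smul_eq_mul, mul_one] at h2
        exact lt_of_lt_of_le h2 (Nat.le_mul_of_pos_left _ (by positivity)))
    have hp : ∀ i, b i ≠ 0 → p i = 0 := fun i hi => hpS i (by
      rw [Finset.mem_filter]
      rintro ⟨-, h⟩
      exact hi h)
    have hS1 := hSS k ι α F d b s m hsys p hp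
    obtain ⟨Λ', hΛ⟩ := ih _ _ _ _ _ hS1 (by
      obtain ⟨a, ha⟩ := hd2
      refine ⟨⟨a, 0⟩, ?_⟩
      exact ha)
    have hmem : ∀ i, i ∈ bS b (s + 1) ↔ 1 ≤ b i ∧ b i ≤ s + 1 := fun i => by
      unfold bS
      rw [Finset.mem_filter]
      exact ⟨fun h => h.2, fun h => ⟨Finset.mem_univ i, h⟩⟩
    -- extension by zero
    let ext : ({i // i ∈ bS b (s + 1)} → k) → ι → k := fun v i =>
      if h : i ∈ bS b (s + 1) then v ⟨i, h⟩ else 0
    have hext1 : ∀ v (i : {i // i ∈ bS b (s + 1)}), ext v i.1 = v i := fun v i => dif_pos i.2
    have hext0 : ∀ v i, i ∉ bS b (s + 1) → ext v i = 0 := fun v i hi => dif_neg hi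
    let Λ : ℕ → ι → k := fun j => Nat.casesOn j p fun j => ext (Λ' j)
    have hL0 : Λ 0 = p := rfl
    have hLs : ∀ j, Λ (j + 1) = ext (Λ' j) := fun _ => rfl
    refine ⟨Λ, fun j hj => ?_, fun j hj i hi => ?_, fun a A _ _ c => ?_⟩
    · rcases j with - | j
      · exact hp0
      · rw [hLs]
        intro h
        apply hΛ.ne j (by omega)
        funext i
        have h1 := hext1 (Λ' j) i
        rw [← h1, h]
        rfl
    · rcases j with - | j
      · exact hp i hi
      · rw [hLs]
        by_cases h : i ∈ bS b (s + 1)
        · have h1 := hext1 (Λ' j) ⟨i, h⟩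
          rw [h1]
          apply hΛ.supp j (by omega)
          have h2 := (hmem i).1 h
          change b i - 1 ≠ j
          omega
        · exact hext0 _ _ h
    · have hFh := hsys.hom a
      have hco := hCO k ι (F a) (d a) hFh
      set P : ι → A := fun i => algebraMap k A (p i) with hP
      set w : ι → A := fun i => ∑ j ∈ Finset.range (s + 1), c (j + 1) * algebraMap k A (Λ (j + 1) i)
        with hw
      set e : {i // i ∈ bS b (s + 1)} → A := fun n =>
        ∑ j ∈ Finset.range (s + 1), c (j + 1) * algebraMap k A (Λ' j n) with he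
      have hwe : (fun i => ∑ n, e n * algebraMap k A (phiS k (bS b (s + 1)) n i)) = w := by
        funext i
        by_cases h : i ∈ bS b (s + 1)
        · rw [Finset.sum_eq_single (⟨i, h⟩ : {i // i ∈ bS b (s + 1)})]
          · unfold phiS
            rw [Pi.single_eq_same, map_one, mul_one, he, hw]
            refine Finset.sum_congr rfl fun j _ => ?_
            rw [hLs, hext1 (Λ' j) ⟨i, h⟩]
          · intro n _ hn
            unfold phiS
            rw [Pi.single_eq_of_ne, map_zero, mul_zero]
            intro h'
            exact hn (Subtype.ext h'.symm)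
          · intro h'
            exact absurd (Finset.mem_univ _) h'
        · rw [Finset.sum_eq_zero, hw]
          · symm
            refine Finset.sum_eq_zero fun j _ => ?_
            rw [hLs, hext0 _ _ h, map_zero, mul_zero]
          · intro n _
            unfold phiS
            rw [Pi.single_eq_of_ne, map_zero, mul_zero]
            intro h'
            exact h (by rw [h']; exact n.2)
      have hHS : ∀ x : Fin (mu d m a + 1), co (F a) P w
          (if (x : ℕ) = 0 then d a else x) = 0 := by
        intro x
        have h1 := hΛ.van ⟨a, x⟩ A (fun j => c (j + 1))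
        have h2 := hf_eval (K1 := k) (F a) p (phiS k (bS b (s + 1)))
          (if (x : ℕ) = 0 then d a else x) A e
        rw [hwe] at h2
        rw [← h2]
        exact h1
      have hwS : Supp (bS b (s + 1)) w := by
        intro i hi
        rw [hw]
        refine Finset.sum_eq_zero fun j _ => ?_
        rw [hLs, hext0 _ _ hi, map_zero, mul_zero]
      have hPS : Supp (Finset.univ.filter fun i => b i = 0) P := by
        intro i hi
        rw [hP]
        simp only
        rw [hpS i hi, map_zero]
      have hmu : mu d m a = min m (d a - 1) := rfl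
      have hzero : ∀ j ≤ d a, co (F a) P w j = 0 := by
        intro j hj
        by_cases h0 : j = 0
        · subst h0
          rw [(hco.2.2.1 A P w).1, hP]
          have h3 : (aeval fun i => (algebraMap k A) (p i)) (F a) = algebraMap k A (eval p (F a)) :=
            aeval_algebraMap_apply (A := k) (B := A) p (F a)
          rw [h3, hpF a, map_zero]
        · by_cases h1 : j ≤ mu d m a
          · have h2 := hHS ⟨j, by omega⟩
            rw [if_neg h0] at h2
            exact h2
          · by_cases h2 : j = d a
            · have h3 : co (F a) P w (d a) = 0 := hHS 0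
              rw [h2]
              exact h3
            · have h3 := (hco.2.2.2.2.1 A P w 0 j hj).2.2
              rw [← h3]
              have h4 := hMX k ι (F a) (d a) (mu d m a) (bS b (s + 1))
                (Finset.univ.filter fun i => b i = 0) hFh (by
                  rw [Finset.disjoint_left]
                  intro i hi hi'
                  rw [Finset.mem_filter] at hi'
                  have := (hmem i).1 hi
                  omega) (by
                  rw [hmu]
                  refine mix_of hFh (hsys.mix a) _ fun i => ?_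
                  rw [Finset.mem_filter]
                  exact ⟨fun h => h.2, fun h => ⟨Finset.mem_univ _, h⟩⟩) A w (fun _ => 0) P hwS hPS
                (d a - j) (by omega)
              have h5 : (fun i => (0 : A) + P i) = P := by
                funext i
                rw [zero_add]
              simp only [zero_add] at h4
              rw [h4]
              have h6 := (hco.2.2.2.2.1 A w (fun _ => 0) 0 (d a - j) (Nat.sub_le _ _)).1
              rw [zero_pow (by omega), zero_mul] at h6
              exact h6.trans (by ring)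
      have h1 := hco.1 A P w (c 0) 1
      have h2 : (fun i => ∑ j ∈ Finset.range (s + 1 + 1), c j * algebraMap k A (Λ j i)) =
          fun i => c 0 * P i + 1 * w i := by
        funext i
        rw [Finset.sum_range_succ', add_comm, one_mul]
        rfl
      rw [h2, h1]
      refine Finset.sum_eq_zero fun j hj => ?_
      rw [Finset.mem_range] at hj
      rw [hzero j (by omega), zero_mul, zero_mul]

end Pool.Agent.Z15P.T3h64.Z15
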