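import Pool.Agent.Z15P.Z15.W.Stm

/-!
# Task W_SUPP of the board t15_tasks (helper15), by helper64
-/

set_option autoImplicit false

open FF FF.PP MvPolynomial Pool.Agent.Z15P.Z15.H Pool.Agent.Z15P.Z15.J Pool.Agent.Z15P.Z15.J.Stm Pool.Agent.Z15P.Z15.S
open Pool.Agent.Z15P.Z15.W

namespace Pool.Agent.Z15P.T3h64.Z15

section

variable {K1 ι ν : Type} [Field K1] {S : Finset ι} (n : {i // i ∈ S} → ν)

/-- the polynomials all of whose monomials have the exponents `μ` at the variables `n i` -/
def GG (μ : ι → ℕ) (p : Polynomial (MvPolynomial ν K1)) : Prop :=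
  ∀ j, ∀ τ ∈ (p.coeff j).support, ∀ i, τ (n i) = μ i.1

variable {n}

lemma GG.mul {μ μ' : ι → ℕ} {p q : Polynomial (MvPolynomial ν K1)} (hp : GG n μ p)
    (hq : GG n μ' q) : GG n (μ + μ') (p * q) := by
  classical
  intro j τ hτ i
  rw [Polynomial.coeff_mul] at hτ
  have h1 := MvPolynomial.support_sum hτ
  rw [Finset.mem_biUnion] at h1
  obtain ⟨ab, -, h2⟩ := h1
  have h3 := MvPolynomial.support_mul _ _ h2
  rw [Finset.mem_add] at h3
  obtain ⟨a, ha, b, hb, rfl⟩ := h3
  rw [Finsupp.add_apply, hp _ a ha i, hq _ b hb i]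
  rfl

lemma GG.C' (c : K1) : GG n 0 (Polynomial.C (MvPolynomial.C c : MvPolynomial ν K1)) := by
  classical
  intro j τ hτ i
  rw [Polynomial.coeff_C] at hτ
  split_ifs at hτ
  · rw [MvPolynomial.mem_support_iff, MvPolynomial.coeff_C] at hτ
    have h1 : 0 = τ := by
      by_contra h
      rw [if_neg h] at hτ
      exact hτ rfl
    rw [← h1]
    rfl
  · simp at hτ

lemma GG.one : GG n 0 (1 : Polynomial (MvPolynomial ν K1)) := by
  have h := GG.C' (n := n) (1 : K1)
  rwa [map_one, map_one] at h

lemma GG.pow {μ : ι → ℕ} {p : Polynomial (MvPolynomial ν K1)} (hp : GG n μ p) (e : ℕ) :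
    GG n (e • μ) (p ^ e) := by
  induction e with
  | zero =>
    rw [pow_zero, zero_smul]
    exact GG.one
  | succ e ih =>
    rw [pow_succ, succ_nsmul]
    exact ih.mul hp

lemma GG.prod {κ : Type} (s : Finset κ) (μ : κ → ι → ℕ) (p : κ → Polynomial (MvPolynomial ν K1))
    (h : ∀ x ∈ s, GG n (μ x) (p x)) : GG n (∑ x ∈ s, μ x) (∏ x ∈ s, p x) := by
  classical
  induction s using Finset.induction_on with
  | empty =>
    rw [Finset.sum_empty, Finset.prod_empty]
    exact GG.one
  | insert a s ha ih =>
    rw [Finset.sum_insert ha, Finset.prod_insert ha]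
    exact (h a (Finset.mem_insert_self a s)).mul (ih fun x hx => h x (Finset.mem_insert_of_mem hx))

end

theorem t_SUPP : W_SUPP := by
  classical
  intro k K1 ι ν _ _ _ _ F z φ j S n hn hz h1 h2 h3 τ hτ
  set f : ι → Polynomial (MvPolynomial ν K1) := fun i =>
    Polynomial.C (C (z i) : MvPolynomial ν K1) +
      Polynomial.X * Polynomial.C (∑ n, X n * C (φ n i)) with hf
  have hfi : ∀ i, GG n (Pi.single i 1) (f i) := by
    intro i a τ hτ i'
    rw [hf] at hτ
    simp only [Polynomial.coeff_add] at hτ
    have h4 := MvPolynomial.support_add hτ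
    rw [Finset.mem_union] at h4
    by_cases hi : i ∈ S
    · have hz' : z i = 0 := hz i hi
      rw [hz'] at h4
      rcases h4 with h4 | h4
      · simp at h4
      · rw [mul_comm, Polynomial.coeff_C_mul, Polynomial.coeff_X] at h4
        split_ifs at h4
        · rw [mul_one] at h4
          have h5 : ∑ n, X n * C (φ n i) = (X (n ⟨i, hi⟩) : MvPolynomial ν K1) := by
            rw [Finset.sum_eq_single (n ⟨i, hi⟩)]
            · rw [h1 ⟨i, hi⟩, C_1, mul_one]
            · intro x _ hx
              rw [h2 ⟨i, hi⟩ x hx, C_0, mul_zero]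
            · intro h
              exact absurd (Finset.mem_univ _) h
          rw [h5, support_X, Finset.mem_singleton] at h4
          rw [h4]
          by_cases hii : i' = ⟨i, hi⟩
          · rw [hii, Finsupp.single_eq_same, Pi.single_eq_same]
          · rw [Finsupp.single_eq_of_ne (fun h => hii (hn h)), Pi.single_eq_of_ne]
            intro h
            exact hii (Subtype.ext h)
        · simp at h4
    · have hne : i'.1 ≠ i := fun h => hi (h ▸ i'.2)
      rw [Pi.single_eq_of_ne hne]
      rcases h4 with h4 | h4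
      · have h5 := GG.C' (n := n) (z i) a τ h4 i'
        rw [h5]
        rfl
      · rw [mul_comm, Polynomial.coeff_C_mul, Polynomial.coeff_X] at h4
        split_ifs at h4
        · rw [mul_one] at h4
          have h5 := MvPolynomial.support_sum h4
          rw [Finset.mem_biUnion] at h5
          obtain ⟨x, -, h6⟩ := h5
          rw [MvPolynomial.mem_support_iff, mul_comm, coeff_C_mul, coeff_X'] at h6
          have h7 : φ x i ≠ 0 := left_ne_zero_of_mul h6
          have h8 : Finsupp.single x 1 = τ := by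
            by_contra h
            rw [if_neg h, mul_zero] at h6
            exact h6 rfl
          rw [← h8, Finsupp.single_eq_of_ne]
          intro h
          rw [← h] at h7
          exact h7 (h3 i hi i')
        · simp at h4
  have hF : aeval f F = ∑ μ ∈ F.support, algebraMap k (Polynomial (MvPolynomial ν K1)) (F.coeff μ) *
      ∏ i ∈ μ.support, f i ^ μ i := by
    rw [aeval_def, eval₂_eq]
  have hHf : Hf F z φ j = (aeval f F : Polynomial (MvPolynomial ν K1)).coeff j := rfl
  rw [hHf, hF, Polynomial.finset_sum_coeff] at hτ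
  have h4 := MvPolynomial.support_sum hτ
  rw [Finset.mem_biUnion] at h4
  obtain ⟨μ, hμ, h5⟩ := h4
  refine ⟨μ, hμ, fun i => ?_⟩
  have hc : GG n 0 (algebraMap k (Polynomial (MvPolynomial ν K1)) (F.coeff μ)) := by
    have h6 : algebraMap k (Polynomial (MvPolynomial ν K1)) (F.coeff μ) =
        Polynomial.C (MvPolynomial.C (algebraMap k K1 (F.coeff μ)) : MvPolynomial ν K1) := rfl
    rw [h6]
    exact GG.C' _
  have h6 := hc.mul (GG.prod μ.support (fun i => μ i • Pi.single i 1) (fun i => f i ^ μ i)
    fun i _ => (hfi i).pow (μ i))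
  have h7 := h6 j τ h5 i
  rw [h7, zero_add, Finset.sum_apply]
  simp only [Pi.smul_apply, smul_eq_mul]
  rw [Finset.sum_eq_single i.1]
  · rw [Pi.single_eq_same, mul_one]
  · intro x _ hx
    rw [Pi.single_eq_of_ne hx.symm, mul_zero]
  · intro h
    rw [Finsupp.notMem_support_iff.1 h, zero_mul]

end Pool.Agent.Z15P.T3h64.Z15
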