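import Pool.Agent.Z15P.Z15.W.Stm

/-!
# Tasks W_SYSYi and W_SYSSi of the board t15_tasks (helper15), by helper64
-/

set_option autoImplicit false

open FF FF.PP MvPolynomial Pool.Agent.Z15P.Z15.H Pool.Agent.Z15P.Z15.J Pool.Agent.Z15P.Z15.J.Stm Pool.Agent.Z15P.Z15.S
open Pool.Agent.Z15P.Z15.W

namespace Pool.Agent.Z15P.T3h64.Z15

section arith

variable {α : Type} (d : α → ℕ) (m : ℕ)

lemma mu_le (a : α) : mu d m a ≤ m := min_le_left _ _

lemma mu_lt (hd : ∀ a, 0 < d a) (a : α) : mu d m a < d a := by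
  have h1 : mu d m a ≤ d a - 1 := min_le_right _ _
  have := hd a
  omega

/-- a sum over the new equations -/
lemma sum_le [Fintype α] (e : (Σ a, Fin (mu d m a + 1)) → ℕ) (he : ∀ x, e x ≤ d x.1) :
    ∑ x, e x ≤ (m + 1) * ∑ a, d a := by
  calc ∑ x, e x ≤ ∑ x : (Σ a, Fin (mu d m a + 1)), d x.1 := Finset.sum_le_sum fun x _ => he x
    _ = ∑ a, ∑ _i : Fin (mu d m a + 1), d a := Fintype.sum_sigma _
    _ = ∑ a, (mu d m a + 1) * d a := by
        refine Finset.sum_congr rfl fun a _ => ?_
        rw [Finset.sum_const, Finset.card_univ, Fintype.card_fin, smul_eq_mul]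
    _ ≤ ∑ a, (m + 1) * d a := Finset.sum_le_sum fun a _ =>
        Nat.mul_le_mul_right _ (Nat.succ_le_succ (mu_le d m a))
    _ = _ := by rw [Finset.mul_sum]

end arith

section

variable {ι : Type} [Fintype ι]

/-- a sum over a subtype -/
lemma sum_sub_le {S : Finset ι} (f : ι → ℕ) (P : {i // i ∈ S} → Prop) [DecidablePred P]
    (Q : ι → Prop) [DecidablePred Q] (h : ∀ i, P i → Q i.1) :
    ∑ i with P i, f i.1 ≤ ∑ i with Q i, f i := by
  classical
  have h1 : ∑ i with P i, f i.1 =
      ∑ i ∈ (Finset.univ.filter P).map (Function.Embedding.subtype _), f i := by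
    rw [Finset.sum_map]
    rfl
  rw [h1]
  refine Finset.sum_le_sum_of_subset_of_nonneg ?_ fun _ _ _ => Nat.zero_le _
  intro i hi
  rw [Finset.mem_map] at hi
  obtain ⟨x, hx, rfl⟩ := hi
  rw [Finset.mem_filter] at hx ⊢
  exact ⟨Finset.mem_univ _, h x hx.2⟩

end

theorem t_SYSSi : W_SYSSi := by
  intro hS K _ _ ι α _ _ F d b s m hsys p hp
  have hmem : ∀ i, i ∈ bS b (s + 1) ↔ 1 ≤ b i ∧ b i ≤ s + 1 := fun i => by
    unfold bS
    rw [Finset.mem_filter]
    exact ⟨fun h => h.2, fun h => ⟨Finset.mem_univ i, h⟩⟩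
  have hle : ∑ x, dS d (mu d m) x ≤ (m + 1) * ∑ a, d a := by
    refine sum_le d m _ fun x => ?_
    unfold dS
    split_ifs
    · exact le_rfl
    · have h1 := mu_lt d m hsys.pos x.1
      have h2 := x.2.2
      omega
  have hpw : (m + 1) ^ s * ∑ x, dS d (mu d m) x ≤ (m + 1) ^ (s + 1) * ∑ a, d a := by
    calc _ ≤ (m + 1) ^ s * ((m + 1) * ∑ a, d a) := Nat.mul_le_mul_left _ hle
      _ = _ := by rw [pow_succ, mul_assoc]
  have hcard : ∀ j ≤ s, (Finset.univ.filter fun i : {i // i ∈ bS b (s + (1 : ℕ))} => b i.1 - 1 = j).card =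
      (Finset.univ.filter fun i : ι => b i = j + 1).card := by
    intro j hj
    classical
    rw [← Finset.card_map (Function.Embedding.subtype _)]
    congr 1
    ext i
    rw [Finset.mem_map, Finset.mem_filter]
    constructor
    · rintro ⟨x, hx, rfl⟩
      rw [Finset.mem_filter] at hx
      have h1 := (hmem x.1).1 x.2
      refine ⟨Finset.mem_univ _, ?_⟩
      change b x.1 = j + 1
      omega
    · rintro ⟨-, h1⟩
      refine ⟨⟨i, (hmem i).2 (by omega)⟩, ?_, rfl⟩
      rw [Finset.mem_filter]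
      refine ⟨Finset.mem_univ _, ?_⟩
      change b i - 1 = j
      omega
  refine ⟨fun x => ?_, fun x => ?_, fun x => ?_, ⟨?_, ?_, fun j hj1 hj2 => ?_⟩⟩
  · exact hf_hom _ _ _ _
  · unfold dS
    split_ifs with h
    · exact hsys.pos _
    · exact Nat.pos_of_ne_zero h
  · intro τ hτ i hi
    classical
    obtain ⟨μ, hμ, h1⟩ := hS K K ι {i // i ∈ bS b (s + (1 : ℕ))} (F x.1) p (phiS K (bS b (s + 1)))
      (if (x.2 : ℕ) = 0 then d x.1 else x.2) (bS b (s + 1)) id Function.injective_id
      (fun i hi => hp i (by have := (hmem i).1 hi; omega))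
      (fun i => by unfold phiS; exact Pi.single_eq_same _ _)
      (fun i x hx => by
        unfold phiS
        refine Pi.single_eq_of_ne ?_ _
        intro h
        exact hx (Subtype.ext h.symm))
      (fun i hi i' => by
        unfold phiS
        refine Pi.single_eq_of_ne ?_ _
        intro h
        exact hi (by rw [h]; exact i'.2)) τ hτ
    have h1i : τ i = μ i.1 := h1 i
    rw [h1i] at hi
    have h2 := hsys.mix x.1 μ hμ i.1 hi
    refine le_trans ?_ h2
    have h3 : ∀ i', τ i' = μ i'.1 := fun i' => h1 i'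
    rw [Finset.sum_congr rfl fun i' _ => h3 i']
    refine sum_sub_le (fun i => μ i) _ _ fun i' hi' => ?_
    have h4 := (hmem i.1).1 i.2
    have h5 := (hmem i'.1).1 i'.2
    have h6 : b i.1 - 1 < b i'.1 - 1 ∧ b i'.1 - 1 ≤ s := hi'
    omega
  · -- total
    have h1 := hsys.sizes.pos 1 le_rfl (by omega)
    have h2 : (Finset.univ.filter fun i : ι => b i = 1).card ≤
        Fintype.card {i // i ∈ bS b (s + (1 : ℕ))} := by
      rw [← hcard 0 (Nat.zero_le s)]
      exact Finset.card_le_univ _
    have h3 : (m + 1) * ∑ a, d a ≤ (m + 1) ^ (s + 1) * ∑ a, d a :=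
      Nat.mul_le_mul_right _ (Nat.le_self_pow (by omega) _)
    omega
  · have h1 := hsys.sizes.pos 1 le_rfl (by omega)
    rw [hcard 0 (Nat.zero_le s), zero_add]
    exact hpw.trans (by omega)
  · have h1 := hsys.sizes.pos (j + 1) (by omega) (by omega)
    rw [hcard j hj2]
    omega

theorem t_SYSYi : W_SYSYi := by
  intro hS K _ _ ι α _ _ F d b s m hsys K1 _ _ z C hz hC
  have hmem : ∀ i, i ∈ bY b s ↔ b i ≤ s := fun i => by
    unfold bY
    rw [Finset.mem_filter]
    exact ⟨fun h => h.2, fun h => ⟨Finset.mem_univ i, h⟩⟩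
  have hmemX : ∀ i, i ∈ bX b s ↔ b i = s + 1 := fun i => by
    unfold bX
    rw [Finset.mem_filter]
    exact ⟨fun h => h.2, fun h => ⟨Finset.mem_univ i, h⟩⟩
  have hle : ∑ x, dY d (mu d m) x ≤ (m + 1) * ∑ a, d a := by
    refine sum_le d m _ fun x => ?_
    unfold dY
    omega
  have hpw : (m + 1) ^ s * ∑ x, dY d (mu d m) x ≤ (m + 1) ^ (s + 1) * ∑ a, d a := by
    calc _ ≤ (m + 1) ^ s * ((m + 1) * ∑ a, d a) := Nat.mul_le_mul_left _ hle
      _ = _ := by rw [pow_succ, mul_assoc]
  set b' : {i // i ∈ bY b s} ⊕ Unit → ℕ := Sum.elim (fun i => b i.1) fun _ => s + 1 with hb'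
  have hcard : ∀ j ≤ s, (Finset.univ.filter fun i : {i // i ∈ bY b s} ⊕ Unit => b' i = j).card =
      (Finset.univ.filter fun i : ι => b i = j).card := by
    intro j hj
    symm
    refine Finset.card_bij (fun i hi => Sum.inl ⟨i, (hmem i).2 (by
      have := (Finset.mem_filter.1 hi).2; omega)⟩) ?_ ?_ ?_
    · intro i hi
      rw [Finset.mem_filter] at hi ⊢
      exact ⟨Finset.mem_univ _, hi.2⟩
    · intro i hi i' hi' h
      exact congrArg Subtype.val (Sum.inl_injective h)
    · intro x hx
      rw [Finset.mem_filter] at hx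
      rcases x with i | u
      · exact ⟨i.1, Finset.mem_filter.2 ⟨Finset.mem_univ _, hx.2⟩, rfl⟩
      · have h1 : s + 1 = j := hx.2
        omega
  refine ⟨fun x => ?_, fun x => ?_, fun x => ?_, ⟨?_, ?_, fun j hj1 hj2 => ?_⟩⟩
  · exact hf_hom _ _ _ _
  · unfold dY
    have h1 := mu_lt d m hsys.pos x.1
    have h2 := x.2.2
    omega
  · intro τ hτ n₀ hn₀
    classical
    rcases n₀ with i | u
    · obtain ⟨μ, hμ, h1⟩ := hS K K1 ι ({i // i ∈ bY b s} ⊕ Unit) (F x.1) z (phiY (bY b s) C)
        (d x.1 - x.2) (bY b s) Sum.inl Sum.inl_injective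
        (fun i hi => hz i (by
          rw [hmemX]
          have := (hmem i).1 hi
          omega))
        (fun i => by unfold phiY; exact Pi.single_eq_same _ _)
        (fun i x hx => by
          rcases x with x | u
          · unfold phiY
            refine Pi.single_eq_of_ne ?_ _
            intro h
            exact hx (congrArg Sum.inl (Subtype.ext h.symm))
          · exact hC i.1 i.2)
        (fun i hi i' => by
          unfold phiY
          refine Pi.single_eq_of_ne ?_ _
          intro h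
          exact hi (by rw [h]; exact i'.2)) τ hτ
      rw [h1 i] at hn₀
      have h2 := hsys.mix x.1 μ hμ i.1 hn₀
      refine le_trans ?_ h2
      have h3 : ∑ n' with b' (Sum.inl i) < b' n' ∧ b' n' ≤ s, τ n' =
          ∑ i' : {i // i ∈ bY b s} with b i.1 < b i'.1 ∧ b i'.1 ≤ s, μ i'.1 := by
        symm
        refine Finset.sum_bij (fun i' _ => Sum.inl i') ?_ ?_ ?_ ?_
        · intro i' hi'
          rw [Finset.mem_filter] at hi' ⊢
          exact ⟨Finset.mem_univ _, hi'.2⟩
        · intro i' _ i'' _ h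
          exact Sum.inl_injective h
        · intro y hy
          rw [Finset.mem_filter] at hy
          rcases y with y | u
          · exact ⟨y, Finset.mem_filter.2 ⟨Finset.mem_univ _, hy.2⟩, rfl⟩
          · have h4 : s + 1 ≤ s := hy.2.2
            omega
        · intro i' _
          exact (h1 i').symm
      rw [h3]
      refine sum_sub_le (fun i => μ i) _ _ fun i' hi' => ?_
      omega
    · refine le_trans (le_of_eq (Finset.sum_eq_zero fun n' hn' => ?_)) (Nat.zero_le m)
      rw [Finset.mem_filter] at hn'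
      have h1 : s + 1 < b' n' := hn'.2.1
      have h2 := hn'.2.2
      omega
  · have h1 := hsys.sizes.zero
    have h2 := hcard 0 (Nat.zero_le s)
    have h3 : (Finset.univ.filter fun i : {i // i ∈ bY b s} ⊕ Unit => b' i = 0).card + 1 ≤
        Fintype.card ({i // i ∈ bY b s} ⊕ Unit) := by
      have h4 : Finset.univ.filter (fun i : {i // i ∈ bY b s} ⊕ Unit => b' i = 0) ⊂
          Finset.univ := by
        rw [Finset.ssubset_univ_iff]
        intro h
        have h5 := Finset.mem_univ (Sum.inr () : {i // i ∈ bY b s} ⊕ Unit)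
        rw [← h, Finset.mem_filter] at h5
        have h6 : s + 1 = 0 := h5.2
        omega
      exact Finset.card_lt_card h4
    have h4 : (m + 1) * ∑ a, d a ≤ (m + 1) ^ (s + 1) * ∑ a, d a :=
      Nat.mul_le_mul_right _ (Nat.le_self_pow (by omega) _)
    omega
  · have h1 := hsys.sizes.zero
    rw [hcard 0 (Nat.zero_le s)]
    exact hpw.trans h1
  · have h1 := hsys.sizes.pos j hj1 (by omega)
    rw [hcard j hj2]
    omega

end Pool.Agent.Z15P.T3h64.Z15
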